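import Pool.Agent.Q189.HG.Fin2

/-!
# Near relations between the periods of hypergeometric motives of Calabi–Yau type come from the symplectic group

Let `β_1, …, β_m` be rational numbers which are not integers and `θ = z d/dz`. The hypergeometric operator
`θ^(2m) - z ∏_i (θ^2 - β_i^2)` has maximally unipotent monodromy at `z = 0`; for `m = 1` its solutions are periods of
families of elliptic curves, for `m = 2` and `β = (1/5, 2/5)` it is contiguous to the operator of the mirror quintic. The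
periods of the fibre at `z = 1 / α` of the corresponding family of motives over `ℚ(z)` are the entries of the matrices
`Y(α) Ω`, where `Y(α)` is the matrix of the `(θ^i f_j)(1/α)`, `f_j` is the Frobenius basis, and `Ω` is a matrix of constants
(the periods of the limit motive). `Y(α)` lies in the symplectic group of an explicit form `J`, and Grothendieck's
conjecture predicts that there are no other relations for general algebraic `α`.

We consider `k` operators, with parameters `β_1, …, β_k` (the orders and parameters may be different or equal), and the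
fibres at `1 / α_1, …, 1 / α_k`, where the `α_j` are algebraic integers of degree at most `m`. Outside a set of tuples of
density `O(T ^ (-c))` among the tuples with conjugates at most `T`, there is for all polynomials `P` of degree at most `d`
and height at most `H` in the numbers `log α_j` and in the entries of the matrices `Y_j(α_j)`

* (measure) the lower bound `|P| ≥ H ^ (-B)`, if the coefficients of `P` are polynomials in the `α_j` with integer
  coefficients, unless `P` vanishes on `ℂ^k × ∏_j Sp(J_j)`;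
* (transfer) the bound `|P(l, X)| ≤ (H max(1, |(l, X)|)) ^ B |P(log α, Y(α))|` for all `l ∈ ℂ^k`, `X_j ∈ Sp(J_j)`, if the
  coefficients of `P` are polynomials in the `α_j` and in arbitrary complex numbers `ζ_1, …, ζ_g`, for example the
  entries of the matrices `Ω_j` or the periods of any other motives, uniformly in `ζ`: every near relation is a near
  relation on the whole torsor.

The exponent `B` depends on the `β_j` and on `g, d, m` only. The bounds hold for all `H` in a long interval from `H₁`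
to `H₁ ^ exp (T ^ c)`, for any sufficiently large `H₁`; and, with one exceptional set of tuples for all `H`, for a set
of `H` of upper density at least `1 - T ^ (-c)` on the doubly logarithmic scale, in particular for arbitrarily large
`H`. They hold for all determinations of the logarithms with absolute value at most `H`.

Proof. (1) `Pool.Agent.Q189.MF`: the machine of helper246 (`Pool.Agent.Q246.LN`) for connected families of G-functions, in
a version for a different family at each point. (2) `Pool.Agent.Q189.HG`: the entries of the holomorphic part of `Y` form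
a family of G-functions (helper119, `Pool.Agent.Y119.HY`). The family is connected: an algebraic function in the field
generated by the entries would be a rational function on the group with finitely many values, but two points of the
symplectic group are joined by a polynomial curve. (3) The specialisations of all functional relations hold on the
whole symplectic group (helper119).
-/

set_option autoImplicit false

open PowerSeries

namespace Pool.Agent.Results.MP_57341d_ag.NearRelationsHypergeometric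

/-- `a_s(ε) = ∏_{l < s} ∏_i ((l + ε)^2 - β_i^2) / (l + 1 + ε)^(2m)`. The coefficients `f_j` at `ε^j`, `j < 2m`, of the
series `∑_s a_s(ε) z^(s + ε)` are the Frobenius basis of the solutions of `(θ^(2m) - z ∏_i (θ^2 - β_i^2)) f = 0`. -/
noncomputable def frob {m : ℕ} (β : Fin m → ℚ) (s : ℕ) : PowerSeries ℚ :=
  ∏ l ∈ Finset.range s, ((∏ i, ((C (l : ℚ) + X) ^ 2 - C (β i ^ 2))) * ((C ((l + 1 : ℕ) : ℚ) + X)⁻¹) ^ (2 * m))

/-- The matrix with the entries `(θ^i f_j)(1 / α)`, for the determination `-ℓ` of `log (1 / α)`, that is the coefficients at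
`ε^j` of `∑_s (s + ε)^i a_s(ε) (1 / α)^s exp(-ℓ ε)`. -/
noncomputable def Y {m : ℕ} (β : Fin m → ℚ) (α ℓ : ℂ) : Matrix (Fin (2 * m)) (Fin (2 * m)) ℂ :=
  Matrix.of fun i j => ∑ l ∈ Finset.range ((j : ℕ) + 1), (-ℓ) ^ l / (l.factorial : ℂ) *
    ∑' s : ℕ, ((coeff ((j : ℕ) - l) ((C (s : ℚ) + X) ^ (i : ℕ) * frob β s) : ℚ) : ℂ) * (1 / α) ^ s

/-- The matrix of the intersection form: the entry `(i, j)` is `(-1)^i q_{i+j+1-2m}` for `i + j + 1 ≥ 2m` and `0`
otherwise, where `q_l` are the coefficients of `∏_i (x^2 - β_i^2)`. -/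
noncomputable def J {m : ℕ} (β : Fin m → ℚ) : Matrix (Fin (2 * m)) (Fin (2 * m)) ℂ :=
  Matrix.of fun i j => if 2 * m ≤ (i : ℕ) + j + 1 then
    (((-1) ^ (i : ℕ) * (∏ i, (Polynomial.X ^ 2 - Polynomial.C (β i ^ 2))).coeff (i + j + 1 - 2 * m) : ℚ) : ℂ) else 0

/-- the symplectic group of the form `J` -/
def Sp {m : ℕ} (β : Fin m → ℚ) : Set (Matrix (Fin (2 * m)) (Fin (2 * m)) ℂ) := {X | X.transpose * J β * X = J β}

/-- the coordinates: a number and a square matrix of order `2 n_j` for every `j` -/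
abbrev Coord {k : ℕ} (n : Fin k → ℕ) : Type := Σ j : Fin k, Option (Fin (2 * n j) × Fin (2 * n j))

/-- the point with the coordinates `l_j` and the entries of the matrices `X_j` -/
def point {k : ℕ} {n : Fin k → ℕ} (l : Fin k → ℂ) (X : ∀ j, Matrix (Fin (2 * n j)) (Fin (2 * n j)) ℂ) : Coord n → ℂ
  | ⟨j, none⟩ => l j
  | ⟨j, some p⟩ => X j p.1 p.2

/-- the algebraic integers of degree at most `m` all of whose conjugates have absolute value at most `T` -/
def Ints (m T : ℕ) : Set ℂ :=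
  {α | IsIntegral ℤ α ∧ (minpoly ℚ α).natDegree ≤ m ∧ ∀ z : ℂ, Polynomial.aeval z (minpoly ℚ α) = 0 → ‖z‖ ≤ T}

/-- The two inequalities at the height `H`, for all determinations `ℓ_j` of `log α_j` with `|ℓ_j| ≤ H`: the measure for
polynomials `P(x, α)`, and the transfer for polynomials `P(x, ζ, α)`. -/
def Good {k g : ℕ} {n : Fin k → ℕ} (β : ∀ j, Fin (n j) → ℚ) (d B : ℕ) (ζ : Fin g → ℂ) (α : Fin k → ℂ) (H : ℝ) : Prop :=
  ∀ ℓ : Fin k → ℂ, (∀ j, Complex.exp (ℓ j) = α j) → (∀ j, ‖ℓ j‖ ≤ H) →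
    (∀ P : MvPolynomial (Coord n ⊕ Fin k) ℤ, P.totalDegree ≤ d → (∀ e, |((P.coeff e : ℤ) : ℝ)| ≤ H) →
      (∃ (l : Fin k → ℂ) (X : ∀ j, Matrix (Fin (2 * n j)) (Fin (2 * n j)) ℂ), (∀ j, X j ∈ Sp (β j)) ∧
        MvPolynomial.aeval (Sum.elim (point l X) α) P ≠ 0) →
      1 ≤ H ^ B * ‖MvPolynomial.aeval (Sum.elim (point ℓ fun j => Y (β j) (α j) (ℓ j)) α) P‖) ∧
    ∀ P : MvPolynomial (Coord n ⊕ (Fin g ⊕ Fin k)) ℤ, P.totalDegree ≤ d → (∀ e, |((P.coeff e : ℤ) : ℝ)| ≤ H) →
      ∀ (l : Fin k → ℂ) (X : ∀ j, Matrix (Fin (2 * n j)) (Fin (2 * n j)) ℂ), (∀ j, X j ∈ Sp (β j)) →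
      ‖MvPolynomial.aeval (Sum.elim (point l X) (Sum.elim ζ α)) P‖ ≤ (H * max 1 ‖point l X‖) ^ B *
        ‖MvPolynomial.aeval (Sum.elim (point ℓ fun j => Y (β j) (α j) (ℓ j)) (Sum.elim ζ α)) P‖

theorem J_eq {m : ℕ} (β : Fin m → ℚ) :
    J β = Pool.Agent.Y119.HY.cm (Pool.Agent.Y119.HY.Jm (2 * m) (Pool.Agent.Y119.HY.QB β)) := by
  ext i j
  rw [Pool.Agent.Y119.HY.cm_apply]
  unfold J Pool.Agent.Y119.HY.Jm
  rw [Matrix.of_apply, Matrix.of_apply]
  split_ifs
  · rfl
  · simp

theorem Sp_eq {m : ℕ} (β : Fin m → ℚ) : Sp β = Pool.Agent.Q189.HG.Iso (2 * m) (Pool.Agent.Y119.HY.QB β) := by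
  unfold Sp Pool.Agent.Q189.HG.Iso
  rw [J_eq]

theorem frob_eq {m : ℕ} (β : Fin m → ℚ) (s : ℕ) : frob β s = Pool.Agent.Y119.HY.aq (2 * m) (Pool.Agent.Y119.HY.QB β) s := by
  unfold frob Pool.Agent.Y119.HY.aq
  refine Finset.prod_congr rfl fun l _ => ?_
  congr 1
  unfold Pool.Agent.Y119.HY.QB
  rw [map_prod]
  refine Finset.prod_congr rfl fun j _ => ?_
  simp only [map_sub, map_pow, Polynomial.aeval_X, Polynomial.aeval_C]
  rfl

theorem Y_eq {m : ℕ} (β : Fin m → ℚ) (α ℓ : ℂ) :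
    Y β α ℓ = Pool.Agent.Q189.HG.Ym (2 * m) (Pool.Agent.Y119.HY.QB β) α ℓ := by
  ext i j
  unfold Y Pool.Agent.Q189.HG.Ym
  rw [Matrix.of_apply, Matrix.mul_apply]
  simp only [Pool.Agent.Q189.HG.E_apply, Finset.mul_sum]
  rw [Finset.sum_comm]
  have hsub : Finset.range ((j : ℕ) + 1) ⊆ Finset.range (2 * m) := by
    intro l hl
    rw [Finset.mem_range] at hl ⊢
    have := j.2
    omega
  refine Finset.sum_subset_zero_on_sdiff hsub (fun l hl => ?_) fun l hl => ?_
  · rw [Finset.mem_sdiff, Finset.mem_range, Finset.mem_range] at hl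
    refine Finset.sum_eq_zero fun c _ => ?_
    rw [if_neg (by omega), mul_zero]
  · rw [Finset.mem_range] at hl
    have hj := j.2
    rw [Finset.sum_eq_single (⟨(j : ℕ) - l, by omega⟩ : Fin (2 * m))]
    · rw [if_pos (by simp only; omega), mul_comm]
      congr 1
      unfold Pool.Agent.Q189.HG.Mt Pool.Agent.Y120.GH.ou Pool.Agent.Y120.GH.inn
      rw [Matrix.of_apply]
      refine tsum_congr fun s => ?_
      rw [Pool.Agent.Y120.GH.coeff_cx]
      congr 2
      have h2 : coeff s (Pool.Agent.Y119.HZ.Hp (2 * m) (Pool.Agent.Y119.HY.QB β) i ⟨(j : ℕ) - l, by omega⟩) =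
          Pool.Agent.Y119.HY.Hq (2 * m) (Pool.Agent.Y119.HY.QB β) s i ⟨(j : ℕ) - l, by omega⟩ :=
        congrFun (congrFun (Pool.Agent.Y119.HZ.cf_Hp (Q := Pool.Agent.Y119.HY.QB β) s) i) _
      rw [h2, frob_eq]
      rfl
    · intro c _ hc
      rw [if_neg, mul_zero]
      intro h
      apply hc
      apply Fin.ext
      simp only
      omega
    · intro h
      exact absurd (Finset.mem_univ _) h

theorem point_eq {k : ℕ} {n : Fin k → ℕ} (l : Fin k → ℂ) (X : ∀ j, Matrix (Fin (2 * n j)) (Fin (2 * n j)) ℂ) :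
    point l X = Pool.Agent.Q189.HG.pnt (n := fun j => 2 * n j) l X := by
  funext v
  obtain ⟨j, _ | p⟩ := v
  · rfl
  · rfl

/-- Let `β_1, …, β_k` be finite non-empty families of rational numbers which are not integers. The forms `J_j` are
alternating and non-degenerate, and `Y_j(α) ∈ Sp(J_j)` for all large `α` and all determinations of `log α`. For all `g`, `d`,
`m ≥ 1` there are `B`, `C` and `c > 0` such that for all `T ≥ 1`: (1) for every sufficiently large `H₁` and all `ζ ∈ ℂ^g`,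
all but at most `C T ^ (-c) |Ints m T| ^ k` of the tuples `α ∈ (Ints m T)^k` are good for all `H` with
`H₁ ≤ H ≤ H₁ ^ exp (T ^ c)`; (2) for all `ζ ∈ ℂ^g`, all but at most `C T ^ (-c) |Ints m T| ^ k` of the tuples have the
property that there are arbitrarily large `N` such that, for all but at most `T ^ (-c) N` of the `s < N`, `α` is good for
all `H` with `2 ^ (2 ^ s) ≤ H ≤ 2 ^ (2 ^ (s + 1))`. -/
theorem result (k : ℕ) (n : Fin k → ℕ) (hn : ∀ j, 1 ≤ n j) (β : ∀ j, Fin (n j) → ℚ)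
    (hβ : ∀ j i, ∀ a : ℤ, β j i ≠ a) (g d m : ℕ) (hm : 1 ≤ m) :
    (∀ j, (J (β j)).transpose = -J (β j) ∧ (J (β j)).det ≠ 0 ∧
      ∃ R : ℝ, ∀ α ℓ : ℂ, R < ‖α‖ → Y (β j) α ℓ ∈ Sp (β j)) ∧
    ∃ (B : ℕ) (C c : ℝ), 0 < c ∧ ∀ T : ℕ, 1 ≤ T →
    (∃ H₀ : ℝ, ∀ H₁ : ℝ, H₀ ≤ H₁ → ∀ ζ : Fin g → ℂ,
      (({α : Fin k → ℂ | (∀ j, α j ∈ Ints m T) ∧ ¬ ∀ H : ℝ, H₁ ≤ H → H ≤ H₁ ^ Real.exp ((T : ℝ) ^ c) →
        Good β d B ζ α H}.ncard : ℕ) : ℝ) ≤ C * (T : ℝ) ^ (-c) * (((Ints m T).ncard : ℕ) : ℝ) ^ k) ∧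
    ∀ ζ : Fin g → ℂ, (({α : Fin k → ℂ | (∀ j, α j ∈ Ints m T) ∧ ¬ ∀ N₀ : ℕ, ∃ N, N₀ ≤ N ∧
      (({s : ℕ | s < N ∧ ¬ ∀ H : ℝ, 2 ^ (2 ^ s) ≤ H → H ≤ 2 ^ (2 ^ (s + 1)) → Good β d B ζ α H}.ncard : ℕ) : ℝ) ≤
        (T : ℝ) ^ (-c) * N}.ncard : ℕ) : ℝ) ≤ C * (T : ℝ) ^ (-c) * (((Ints m T).ncard : ℕ) : ℝ) ^ k := by
  classical
  have hβ' : ∀ i, ∀ j, ∀ l : ℕ, (l : ℚ) + β i j ≠ 0 ∧ (l : ℚ) + -β i j ≠ 0 := by
    intro i j l
    constructor
    · intro h
      apply hβ i j (-(l : ℤ))
      push_cast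
      linear_combination h
    · intro h
      apply hβ i j (l : ℤ)
      push_cast
      linear_combination -h
  have hQ := fun i => Pool.Agent.Y119.HZ.QD_QB (hn i) (hβ' i)
  have hH : ∀ j a b, Pool.Agent.Y113.SDc (Pool.Agent.Y119.HZ.Hp (2 * n j) (Pool.Agent.Y119.HY.QB (β j)) a b) :=
    fun j a b => Pool.Agent.Y119.HY.sdc_hps (hβ' j) (hQ j) a b
  refine ⟨fun j => ⟨?_, ?_, ?_⟩, ?_⟩
  · rw [J_eq]
    exact Pool.Agent.Y119.HY.Jc_skew (hQ j)
  · rw [J_eq]
    exact Pool.Agent.Y119.HY.Jc_det (hQ j)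
  · obtain ⟨K, hK, hs⟩ := Pool.Agent.Q189.HG.size_hf (hH j)
    refine ⟨K, fun α ℓ hα => ?_⟩
    rw [Sp_eq, Y_eq]
    exact Pool.Agent.Y119.HZ.isom_mul (Pool.Agent.Q189.HG.Mt_iso (hQ j) hK hs hα)
      (Pool.Agent.Y119.HY.E_isom Pool.Agent.Y119.HY.Ac_nil Pool.Agent.Y119.HY.Jc_rel (-ℓ))
  have hgood : ∀ (B : ℕ) (ζ : Fin g → ℂ) (α : Fin k → ℂ) (H : ℝ), Good β d B ζ α H ↔
      Pool.Agent.Q189.HG.GdH (fun j => 2 * n j) (fun j => Pool.Agent.Y119.HY.QB (β j)) d B ζ α H := by
    intro B ζ α H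
    unfold Good Pool.Agent.Q189.HG.GdH
    simp only [point_eq, Y_eq, Sp_eq]
  simp only [hgood]
  exact Pool.Agent.Q189.HG.main (n := fun j => 2 * n j) (fun j => Pool.Agent.Y119.HY.QB (β j)) hQ hH g m d hm

end Pool.Agent.Results.MP_57341d_ag.NearRelationsHypergeometric
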