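import Pool.Agent.Q207.HM.Qua

/-!
# Periods of sums of hypergeometric motives: for almost all tuples of fibres all relations of bounded degree come from
quadratic relations and determinants

The equation `θ^n f = z ∏_j (θ + α_j) f` with rational non-integral exponents `α_1, …, α_n`, `θ = z d/dz`, has maximally
unipotent monodromy at `z = 0`, and its solutions are periods of a family `H(α)` of motives over `ℚ(z)` of rank `n`. The
Frobenius method gives the basis `f_0, …, f_{n-1}` of solutions, and the periods of the fibres near `z = 0` are linear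
combinations of the numbers `(θ^i f_j)(z)` with constant coefficients. We consider tuples of fibres of arbitrary finite
direct sums `⨁_j H(α_j)`, with repetitions, with equivalent and with dual members.
-/

set_option autoImplicit false

open PowerSeries Q207.HM
open Pool.Agent.Y119.HZ (Yt)

namespace Pool.Agent.Results.MP_57341d_ag.SumsOfHypergeometricMotives

/-- the power series `k + ε` in the variable `ε` -/
noncomputable def shift (k : ℕ) : PowerSeries ℚ := C (k : ℚ) + X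

/-- `a_k(ε) = ∏_{l < k} ∏_j (l + ε + α_j) / (l + 1 + ε)^n`. The series `∑_k a_k(ε) z^(k + ε)` solves the equation
`(θ^n - z ∏_j (θ + α_j)) f = ε^n z^ε`, hence its coefficients `f_j` at `ε^j` with `j < n` are solutions of the
homogeneous equation. -/
noncomputable def frob {n : ℕ} (α : Fin n → ℚ) (k : ℕ) : PowerSeries ℚ :=
  ∏ l ∈ Finset.range k, ((∏ j, (shift l + C (α j))) * ((shift (l + 1))⁻¹) ^ n)

/-- The matrix with the entries `(θ^i f_j)(z)`, where `f_j(z)` is the coefficient of `ε^j` in the series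
`∑_k a_k(ε) z^(k + ε)`, `z^ε = ∑_l (log z)^l ε^l / l!`. -/
noncomputable def Y {n : ℕ} (α : Fin n → ℚ) (z : ℝ) : Matrix (Fin n) (Fin n) ℂ :=
  Matrix.of fun i j => ∑ l ∈ Finset.range ((j : ℕ) + 1), ((Real.log z ^ l / l.factorial : ℝ) : ℂ) *
    ∑' k : ℕ, ((coeff ((j : ℕ) - l) (shift k ^ (i : ℕ) * frob α k) : ℚ) : ℂ) * (z : ℂ) ^ k

/-- the value at `z` and at the entries of the matrices `g_j` of a polynomial with coefficients in `ℚ[z]` -/
noncomputable def value {r : ℕ} {n : Fin r → ℕ} (R : MvPolynomial (Σ j : Fin r, Fin (n j) × Fin (n j)) (Polynomial ℚ))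
    (z : ℝ) (g : ∀ j, Matrix (Fin (n j)) (Fin (n j)) ℂ) : ℂ :=
  MvPolynomial.eval₂ (Polynomial.eval₂RingHom (algebraMap ℚ ℂ) (z : ℂ)) (fun p => g p.1 p.2.1 p.2.2) R

/-- The algebraic set `T(z)` of the direct sum of the motives `H(α_j)`: the matrices `g_j` which satisfy at `z` all
polynomial relations of degree `≤ 2` with coefficients in `ℚ[z]` which hold for the entries of the matrix functions
`Y_j` on the interval `(0, 1)`, and have the determinants `(1 - z)^(- ∑ α_j)`, where the branches come from one and the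
same logarithm of `1 - z`. -/
def torsor {r : ℕ} {n : Fin r → ℕ} (α : ∀ j, Fin (n j) → ℚ) (z : ℝ) : Set (∀ j, Matrix (Fin (n j)) (Fin (n j)) ℂ) :=
  {g | (∀ R : MvPolynomial (Σ j : Fin r, Fin (n j) × Fin (n j)) (Polynomial ℚ), R.totalDegree ≤ 2 →
      (∀ x : ℝ, 0 < x → x < 1 → value R x (fun j => Y (α j) x) = 0) → value R z g = 0) ∧
    ∃ L : ℂ, Complex.exp L = 1 - (z : ℂ) ∧ ∀ j, (g j).det = Complex.exp (-((∑ l, α j l : ℚ) : ℂ) * L)}

/-- the point with the coordinates `l_i` and the entries of the matrices `X_{i j}` -/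
def point {k : ℕ} {r : Fin k → ℕ} {n : ∀ i, Fin (r i) → ℕ} (l : Fin k → ℂ)
    (X : ∀ i j, Matrix (Fin (n i j)) (Fin (n i j)) ℂ) :
    (Σ i : Fin k, Option (Σ j : Fin (r i), Fin (n i j) × Fin (n i j))) → ℂ
  | ⟨i, none⟩ => l i
  | ⟨i, some ⟨j, p⟩⟩ => X i j p.1 p.2

/-- There is a polynomial relation of degree `≤ δ` with coefficients in `V` between the numbers `log t_i` and the
entries of the matrices `Y_{i j}(1 / t_i) Ω_{i j}` which does not vanish identically on `ℂ^k × ∏_i T_i(1 / t_i) Ω_i`,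
where `T_i` are the algebraic sets above. -/
def Exceptional (δ : ℕ) (V : Submodule ℚ ℂ) {k : ℕ} {r : Fin k → ℕ} {n : ∀ i, Fin (r i) → ℕ}
    (α : ∀ i j, Fin (n i j) → ℚ) (Ω : ∀ i j, Matrix (Fin (n i j)) (Fin (n i j)) ℂ) (t : Fin k → ℕ) : Prop :=
  ∃ P : MvPolynomial (Σ i : Fin k, Option (Σ j : Fin (r i), Fin (n i j) × Fin (n i j))) ℂ,
    P.totalDegree ≤ δ ∧ (∀ s, P.coeff s ∈ V) ∧
    MvPolynomial.aeval (point (fun i => ((Real.log (t i) : ℝ) : ℂ)) fun i j => Y (α i j) (1 / (t i : ℝ)) * Ω i j) P = 0 ∧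
    ∃ (l : Fin k → ℂ) (g : ∀ i j, Matrix (Fin (n i j)) (Fin (n i j)) ℂ), (∀ i, g i ∈ torsor (α i) (1 / (t i : ℝ))) ∧
      MvPolynomial.aeval (point l fun i j => g i j * Ω i j) P ≠ 0

theorem shift_eq (k : ℕ) : shift k = Pool.Agent.Y119.HY.kx k := rfl

theorem frob_eq {n : ℕ} (α : Fin n → ℚ) (k : ℕ) : frob α k = Pool.Agent.Y119.HY.aq n (QA α) k := by
  unfold frob Pool.Agent.Y119.HY.aq
  refine Finset.prod_congr rfl fun l _ => ?_
  have h1 : (∏ j, (shift l + C (α j))) = Polynomial.aeval (Pool.Agent.Y119.HY.kx l) (QA α) := by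
    unfold QA
    rw [map_prod]
    refine Finset.prod_congr rfl fun j _ => ?_
    rw [map_add, Polynomial.aeval_X, Polynomial.aeval_C]
    rfl
  rw [h1]
  rfl

theorem Y_eq {n : ℕ} (α : Fin n → ℚ) {x : ℝ} (hx : 0 ≤ x) : Y α x = Yx n (QA α) x := by
  ext i j
  unfold Y Yx Pool.Agent.Y119.HY.Yf
  rw [Matrix.of_apply, Matrix.mul_apply]
  have hE : ∀ c : Fin n, Pool.Agent.Y119.HY.E (Pool.Agent.Y119.HY.cm (Pool.Agent.Y119.HY.Am n))
      (Complex.log (x : ℂ)) c j = ∑ l ∈ Finset.range n,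
        if (j : ℕ) = c + l then ((Real.log x ^ l / l.factorial : ℝ) : ℂ) else 0 := by
    intro c
    unfold Pool.Agent.Y119.HY.E
    rw [Matrix.sum_apply]
    refine Finset.sum_congr rfl fun l _ => ?_
    rw [Matrix.smul_apply, ← Pool.Agent.Y119.HY.cm_pow, Pool.Agent.Y119.HY.cm_apply, Pool.Agent.Y119.HY.Am_pow, smul_eq_mul,
      ← Complex.ofReal_log hx]
    split_ifs
    · push_cast
      ring
    · simp
  simp only [hE, Finset.mul_sum]
  rw [Finset.sum_comm]
  have hsub : Finset.range ((j : ℕ) + 1) ⊆ Finset.range n := by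
    intro l hl
    rw [Finset.mem_range] at hl ⊢
    have := j.2
    omega
  refine Finset.sum_subset_zero_on_sdiff hsub (fun l hl => ?_) fun l hl => ?_
  · rw [Finset.mem_sdiff, Finset.mem_range, Finset.mem_range] at hl
    refine Finset.sum_eq_zero fun c _ => ?_
    rw [if_neg (by omega), mul_zero]
  · rw [Finset.mem_range] at hl
    have hj := j.2
    rw [Finset.sum_eq_single (⟨(j : ℕ) - l, by omega⟩ : Fin n)]
    · rw [if_pos (by simp only; omega), mul_comm]
      congr 1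
      unfold Pool.Agent.Y119.HY.Hf Pool.Agent.Y119.HY.ps
      rw [Matrix.of_apply]
      refine tsum_congr fun k => ?_
      show _ = ((Pool.Agent.Y119.HY.hq n (QA α) k i ((j : ℕ) - l) : ℚ) : ℂ) * (x : ℂ) ^ k
      rw [frob_eq, shift_eq]
      rfl
    · intro c _ hc
      rw [if_neg, mul_zero]
      intro h
      apply hc
      apply Fin.ext
      simp only
      omega
    · intro h
      exact absurd (Finset.mem_univ _) h

theorem value_eq {r : ℕ} {n : Fin r → ℕ} (R : MvPolynomial (Σ j : Fin r, Fin (n j) × Fin (n j)) (Polynomial ℚ))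
    (z : ℝ) (g : ∀ j, Matrix (Fin (n j)) (Fin (n j)) ℂ) : value R z g = valQ R (z : ℂ) g := by
  unfold value valQ
  rfl

theorem point_eq {k : ℕ} {r : Fin k → ℕ} {n : ∀ i, Fin (r i) → ℕ} (l : Fin k → ℂ)
    (X : ∀ i j, Matrix (Fin (n i j)) (Fin (n i j)) ℂ) : point l X = pb l X := by
  funext v
  obtain ⟨i, _ | p⟩ := v
  · rfl
  · rfl

theorem Yt_eq' (n : ℕ) (Q : Polynomial ℚ) (t : ℕ) : Yt n Q t = Yx n Q (1 / (t : ℝ)) := by
  have h1 : Complex.log (((1 / (t : ℝ) : ℝ)) : ℂ) = -((Real.log t : ℝ) : ℂ) := by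
    rw [← Complex.ofReal_log (by positivity), one_div, Real.log_inv]
    push_cast
    rfl
  unfold Yt Yx Pool.Agent.Y119.HY.Yf
  rw [h1]

theorem torsor_eq {r : ℕ} {n : Fin r → ℕ} (α : ∀ j, Fin (n j) → ℚ) (t : ℕ) {g : ∀ j, Matrix (Fin (n j)) (Fin (n j)) ℂ}
    (hg : g ∈ torsor α (1 / (t : ℝ))) : QuadT α t g := by
  intro R hR h
  rw [← value_eq]
  refine hg.1 R hR fun x hx hx1 => ?_
  rw [value_eq]
  have h1 : (fun j => Y (α j) x) = fun j => Yx (n j) (QA (α j)) x := by
    funext j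
    exact Y_eq _ hx.le
  rw [h1]
  exact h x hx hx1

/-- Let `H_{i j}`, `1 ≤ i ≤ k`, `1 ≤ j ≤ r_i`, be the hypergeometric motives with the exponents `α_{i j l}`, rational
and not integral, of ranks `≥ 2`, and suppose that the exponents of each of them are symmetric modulo `ℤ` or have a sum
which is not in `ℤ / 2`; repetitions, equivalent and dual motives are allowed. Let `T_i(z)` be the algebraic set of
the sum `⨁_j H_{i j}` at `z` given by all quadratic relations between the functions and by the determinants. Then the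
period matrices at `1 / t` lie in `T_i(1 / t)` for `t ≥ 2`, and for all `δ` and `D` there are `c > 0` and `C` such
that for every `ℚ`-space `V` of complex numbers of dimension `≤ D`, all complex matrices `Ω_{i j}` and every box
`∏_i (x_i, x_i + N]` with `x_i ≥ 1` the following holds for all but `C N^(k-1) ∑_i (1 + N / (x_i + N)^c)` integral
points `t` of the box: every polynomial relation of degree `≤ δ` with coefficients in `V` between the numbers `log t_i`
and the entries of the matrices `Y_{i j}(1 / t_i) Ω_{i j}` vanishes identically on `ℂ^k × ∏_i T_i(1 / t_i) Ω_i`. -/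
theorem result (k : ℕ) (r : Fin k → ℕ) (n : ∀ i, Fin (r i) → ℕ) (α : ∀ i j, Fin (n i j) → ℚ) (hn : ∀ i j, 2 ≤ n i j)
    (hα : ∀ i j l, ∀ a : ℤ, α i j l ≠ a)
    (hs : ∀ i j, (∃ σ : Equiv.Perm (Fin (n i j)), ∀ l, ∃ a : ℤ, α i j (σ l) + α i j l = a) ∨
      ∀ a : ℤ, 2 * ∑ l, α i j l ≠ a) :
    (∀ i, ∀ t : ℕ, 2 ≤ t → (fun j => Y (α i j) (1 / (t : ℝ))) ∈ torsor (α i) (1 / (t : ℝ))) ∧
    ∀ δ D : ℕ, ∃ c C : ℝ, 0 < c ∧ ∀ V : Submodule ℚ ℂ, Module.Finite ℚ V → Module.finrank ℚ V ≤ D →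
      ∀ (Ω : ∀ i j, Matrix (Fin (n i j)) (Fin (n i j)) ℂ) (x : Fin k → ℕ) (N : ℕ), (∀ i, 1 ≤ x i) → 1 ≤ N →
      (({t : Fin k → ℕ | (∀ i, x i < t i ∧ t i ≤ x i + N) ∧ Exceptional δ V α Ω t}.ncard : ℕ) : ℝ) ≤
        C * (N : ℝ) ^ (k - 1) * ∑ i, (1 + N / ((x i : ℝ) + N) ^ c) := by
  classical
  refine ⟨fun i t ht => ⟨fun R _ h => ?_, Complex.log (1 - 1 / (t : ℂ)), ?_, fun j => ?_⟩, fun δ D => ?_⟩
  · obtain ⟨h1, h2⟩ := tpos ht
    exact h _ h1 h2
  · rw [Complex.exp_log]
    · push_cast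
      rfl
    · obtain ⟨h1, h2⟩ := tpos ht
      have e1 : (1 - 1 / (t : ℂ)) = (((1 - 1 / (t : ℝ) : ℝ)) : ℂ) := by push_cast; rfl
      rw [e1, Ne, Complex.ofReal_eq_zero]
      linarith
  · obtain ⟨h1, h2⟩ := tpos ht
    show (Y (α i j) (1 / (t : ℝ))).det = _
    rw [Y_eq _ h1.le, det_Yt (QG_QA (hn i j) fun l a h0 => hα i j l a h0.symm) ht,
      QA_coeff (by have := hn i j; omega) (α i j)]
  obtain ⟨c, C, hc, -, hmain⟩ := tuplesQ k δ D r n α hα hn fun i j => by
    rcases hs i j with ⟨σ, h1⟩ | h1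
    · refine Or.inl (perm_cls σ fun l => ?_)
      obtain ⟨a, ha⟩ := h1 l
      exact ⟨-a, by push_cast; linarith⟩
    · exact Or.inr h1
  refine ⟨c, C, hc, ?_⟩
  intro V hVf hV Ω x N hx hN
  set S := {t : Fin k → ℕ | (∀ i, x i < t i ∧ t i ≤ x i + N) ∧ Exceptional δ V α Ω t} with hS
  have hfin : S.Finite := by
    refine (Set.finite_Iic (fun i : Fin k => x i + N)).subset ?_
    intro t ht i
    exact (ht.1 i).2
  rw [Set.ncard_eq_toFinset_card S hfin]
  refine hmain V hV Ω x N hx hN _ fun t ht => ?_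
  have ht' : t ∈ S := hfin.mem_toFinset.1 ht
  obtain ⟨hbox, P, h1, h2, h3, l, g, hg, h4⟩ := ht'
  have ht2 : ∀ i, 2 ≤ t i := fun i => by
    have := (hbox i).1
    have := hx i
    omega
  choose L hL1 hL2 using fun i => (hg i).2
  refine ⟨hbox, P, h1, h2, ?_, l, L, g, fun i => ?_, hL2, fun i => torsor_eq (α i) (t i) (hg i), ?_⟩
  · rw [point_eq] at h3
    have h5 : (fun i j => Y (α i j) (1 / (t i : ℝ)) * Ω i j) = fun i j => Yt (n i j) (QA (α i j)) (t i) * Ω i j := by
      funext i j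
      rw [Y_eq _ (tpos (ht2 i)).1.le, Yt_eq']
    rw [h5] at h3
    exact h3
  · rw [hL1 i]
    push_cast
    rfl
  · rw [point_eq] at h4
    exact h4

end Pool.Agent.Results.MP_57341d_ag.SumsOfHypergeometricMotives
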