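import Pool.Agent.Q207.HN.So

/-!
# Periods of sums of hypergeometric motives over number fields: for almost all tuples of members all relations of bounded
degree come from quadratic relations

Let `β = (β_1, …, β_n)` be rational numbers between `0` and `1`, `n` even, symmetric under `a ↦ 1 - a`. The equation
`θ^n f = z ∏_l (θ + β_l) f`, `θ = z d/dz`, has maximally unipotent monodromy at `z = 0`, and its solutions are periods of a
family `H(β)` of motives of rank `n` over `ℚ(z)` of symplectic type, for example `n = 4`, `β = (1/5, 2/5, 3/5, 4/5)` for the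
mirror quintics, where `H(β) = h^3` and `1 / z = ψ^5`. The Frobenius method gives the basis `f_0, …, f_{n-1}` of solutions, and
the periods of the member at `z` are linear combinations with constant coefficients of the numbers `(θ^i f_j)(z)`.

Let `β_1, …, β_s` be pairwise different such vectors. For a point `z` algebraic over `ℚ` the motive `M(z) = ⨁_j H(β_j)_z` is
defined over the number field `ℚ(z)`. The functional relations of degree `2` over `ℚ(z)` between the functions
`(θ^a f_b)`, the Riemann relations of the polarisations, cut out an algebraic set `T(z)`, defined over `ℚ(z)` (a torsor under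
the product of the symplectic groups), and Grothendieck's conjecture says that all algebraic relations over number fields
between the periods are relations on `T(z)`, as far as `(2πi)`, `log z` and the constants of the Frobenius bases allow. (At
special points, for example at CM points, there are more relations: the Mumford-Tate group is smaller.)

**Theorem.** Fix `k, m, δ, D, p` and the `β_j`. For all `k`-tuples `a` of algebraic integers `a_i` of degree `≤ m`, each in its
own number field, without coordinates in a finite set `B`, and outside an exceptional set which has at most `C T^(-c) |I|^k`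
elements in `I^k`, `I` the set of the algebraic integers of degree `≤ m` with conjugates at most `T`, the following holds for the
motives `M(1 / a_1), …, M(1 / a_k)` together: every polynomial relation of degree `≤ δ` with coefficients in a `ℚ`-space `V`
of dimension `≤ D` (for example a number field of degree `≤ D`, or the space generated by the products of elements of a number
field and of polynomials of bounded degree in `2πi` and `ζ(3)`) between any logarithms of the `a_i` and the entries of the
matrices `Y_j(1 / a_i) Ω_{i j}` vanishes identically on `ℂ^k × ∏_i T(1 / a_i) Ω_i`. Here `Ω_{i j}` are any complex matrices with `n_j`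
rows and `p` columns: the entries of `Y_j Ω` are any `p n_j` linear combinations of the solutions and their derivatives, so sums
with multiplicities are included. `B`, `c > 0` and `C` do not depend on `V` and `Ω`.

So all relations of bounded degree between the periods of members over number fields of these families are known for almost
all tuples of members, with one rate. The starting file `HypergeometricSymplectic` and the hand-in
`SumsOfHypergeometricMotives` treat the points `z = 1 / t`, `t` an integer, so motives over `ℚ`. New here are sums of different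
motives at points of number fields.

Proof. The engine is the theorem on relations between values of a connected family of G-functions at almost all tuples of
algebraic integers (starting files Y916, with Q207/AF). Connected means that no element of the field of the functions, outside
`ℚ(z)`, is algebraic over `ℚ(z)`. The family here consists of the holomorphic parts of the solutions: of the matrix
`H(z) = Y(z) exp(- N log z)`, whose entries generate a smaller field than the solutions; the motivic (differential) Galois
group of `Y` does not act on it, and the connectedness needs an argument: an algebraic function in this field is fixed by the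
product of the symplectic groups acting on `Y` over `ℂ(z, log z)` (Levelt, Beukers-Heckman, Goursat-Kolchin-Ribet), so it
can be computed at a symplectic base point, and is a rational function (Pool/Agent/Q207/HN). The symmetries move the
relations to the whole torsor, first on the interval, then, because `log z` is transcendental over the meromorphic
functions, to all points and logarithms.
-/

set_option autoImplicit false

open PowerSeries

namespace Pool.Agent.Results.MP_57341d_ag.SumsOverNumberFields

/-- the power series `k + ε` in the variable `ε` -/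
noncomputable def shift (k : ℕ) : PowerSeries ℚ := C (k : ℚ) + X

/-- `a_k(ε) = ∏_{l < k} ∏_j (l + ε + β_j) / (l + 1 + ε)^n`. The series `∑_k a_k(ε) z^(k + ε)` solves the equation
`(θ^n - z ∏_j (θ + β_j)) f = ε^n z^ε`, hence its coefficients `f_j` at `ε^j` with `j < n` are solutions of the
homogeneous equation. -/
noncomputable def frob {n : ℕ} (β : Fin n → ℚ) (k : ℕ) : PowerSeries ℚ :=
  ∏ l ∈ Finset.range k, ((∏ j, (shift l + C (β j))) * ((shift (l + 1))⁻¹) ^ n)

/-- The matrix with the entries `(θ^i f_j)(z)`, where `f_j(z)` is the coefficient of `ε^j` in the series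
`∑_k a_k(ε) z^(k + ε)`, `z^ε = ∑_l L^l ε^l / l!`, and `L` is the chosen logarithm of `z`. The series converge for `|z| < 1`. -/
noncomputable def Y {n : ℕ} (β : Fin n → ℚ) (z L : ℂ) : Matrix (Fin n) (Fin n) ℂ :=
  Matrix.of fun i j => ∑ l ∈ Finset.range ((j : ℕ) + 1), L ^ l / (l.factorial : ℂ) *
    ∑' k : ℕ, ((coeff ((j : ℕ) - l) (shift k ^ (i : ℕ) * frob β k) : ℚ) : ℂ) * z ^ k

section
variable {s : ℕ} {n : Fin s → ℕ}

/-- the value at `z` and at the entries of the matrices `g_j` of a polynomial with coefficients in `ℚ[z]` -/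
noncomputable def value (R : MvPolynomial (Σ j : Fin s, Fin (n j) × Fin (n j)) (Polynomial ℚ)) (z : ℂ)
    (g : ∀ j, Matrix (Fin (n j)) (Fin (n j)) ℂ) : ℂ :=
  MvPolynomial.eval₂ (Polynomial.eval₂RingHom (algebraMap ℚ ℂ) z) (fun p => g p.1 p.2.1 p.2.2) R

/-- The algebraic set `T(z)` of the sum of the `H(β_j)`: the matrices `X_j` which satisfy at `z` all polynomial relations of
degree `≤ 2` with coefficients in `ℚ[z]` which hold for the entries of the matrix functions `Y_j(x)` on the interval
`(0, 1)`, with the real logarithm. -/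
def torsor (β : ∀ j, Fin (n j) → ℚ) (z : ℂ) : Set (∀ j, Matrix (Fin (n j)) (Fin (n j)) ℂ) :=
  {X | ∀ R : MvPolynomial (Σ j : Fin s, Fin (n j) × Fin (n j)) (Polynomial ℚ), R.totalDegree ≤ 2 →
    (∀ x : ℝ, 0 < x → x < 1 → value R x (fun j => Y (β j) x ((Real.log x : ℝ) : ℂ)) = 0) → value R z X = 0}

/-- the algebraic integers of degree at most `m` all of whose conjugates have absolute value at most `T` -/
def integers (m T : ℕ) : Set ℂ :=
  {a | IsIntegral ℤ a ∧ (minpoly ℚ a).natDegree ≤ m ∧ ∀ z : ℂ, Polynomial.aeval z (minpoly ℚ a) = 0 → ‖z‖ ≤ T}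

/-- the point with the coordinates `l_i` and the entries of the matrices `X_{i j}` -/
def point {k p : ℕ} (l : Fin k → ℂ) (X : Fin k → ∀ j, Matrix (Fin (n j)) (Fin p) ℂ)
    (v : Fin k × Option (Σ j : Fin s, Fin (n j) × Fin p)) : ℂ :=
  v.2.elim (l v.1) fun w => X v.1 w.1 w.2.1 w.2.2

/-- The conclusion for one tuple `a` of algebraic integers: the series `Y_j(1 / a_i)` converge, and every polynomial relation
of degree `≤ δ` with coefficients in `V` between logarithms `ℓ_i` of the `a_i` and the entries of the matrices
`Y_j(1 / a_i) Ω_{i j}` vanishes identically on `ℂ^k × ∏_i T(1 / a_i) Ω_i`. -/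
def Generic {k p : ℕ} (δ : ℕ) (V : Submodule ℚ ℂ) (β : ∀ j, Fin (n j) → ℚ) (Ω : Fin k → ∀ j, Matrix (Fin (n j)) (Fin p) ℂ)
    (a : Fin k → ℂ) : Prop :=
  (∀ i, 1 < ‖a i‖) ∧ ∀ ℓ : Fin k → ℂ, (∀ i, Complex.exp (ℓ i) = a i) →
    ∀ P : MvPolynomial (Fin k × Option (Σ j : Fin s, Fin (n j) × Fin p)) ℂ, P.totalDegree ≤ δ → (∀ e, P.coeff e ∈ V) →
    MvPolynomial.eval (point ℓ fun i j => Y (β j) (1 / a i) (-ℓ i) * Ω i j) P = 0 →
    ∀ (l : Fin k → ℂ) (X : Fin k → ∀ j, Matrix (Fin (n j)) (Fin (n j)) ℂ), (∀ i, X i ∈ torsor β (1 / a i)) →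
      MvPolynomial.eval (point l fun i j => X i j * Ω i j) P = 0

end

theorem frob_eq {n : ℕ} (β : Fin n → ℚ) (k : ℕ) : frob β k = Pool.Agent.Y119.HY.aq n (Q207.HM.QA β) k := by
  unfold frob Pool.Agent.Y119.HY.aq
  refine Finset.prod_congr rfl fun l _ => ?_
  have h1 : (∏ j, (shift l + C (β j))) = Polynomial.aeval (Pool.Agent.Y119.HY.kx l) (Q207.HM.QA β) := by
    unfold Q207.HM.QA
    rw [map_prod]
    refine Finset.prod_congr rfl fun j _ => ?_
    rw [map_add, Polynomial.aeval_X, Polynomial.aeval_C]
    rfl
  rw [h1]
  rfl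

theorem Y_eq {n : ℕ} (β : Fin n → ℚ) (z L : ℂ) : Y β z L = Q207.HN.YL β z L := by
  ext b a
  rw [Q207.HN.YL_apply]
  unfold Y
  rw [Matrix.of_apply]
  refine Finset.sum_congr rfl fun l _ => ?_
  congr 1
  refine tsum_congr fun j => ?_
  rw [frob_eq]
  rfl

theorem Y_real {n : ℕ} (β : Fin n → ℚ) {x : ℝ} (hx : 0 ≤ x) : Y β x ((Real.log x : ℝ) : ℂ) = Q207.HM.Yx n (Q207.HM.QA β) x := by
  rw [Y_eq, Complex.ofReal_log hx]
  rfl

theorem torsor_eq {s : ℕ} {n : Fin s → ℕ} (β : ∀ j, Fin (n j) → ℚ) (z : ℂ) (X : ∀ j, Matrix (Fin (n j)) (Fin (n j)) ℂ) :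
    X ∈ torsor β z ↔ Q207.HN.Qd β z X := by
  have h1 : ∀ (R : MvPolynomial (Σ j : Fin s, Fin (n j) × Fin (n j)) (Polynomial ℚ)) (x : ℝ), 0 < x →
      value R x (fun j => Y (β j) x ((Real.log x : ℝ) : ℂ)) =
        Q207.HM.valQ R (x : ℂ) (fun j => Q207.HM.Yx (n j) (Q207.HM.QA (β j)) x) := by
    intro R x hx
    have h2 : (fun j => Y (β j) x ((Real.log x : ℝ) : ℂ)) = fun j => Q207.HM.Yx (n j) (Q207.HM.QA (β j)) x := by
      funext j
      exact Y_real _ hx.le
    rw [h2]
    rfl
  constructor
  · intro h R hR h0
    exact h R hR fun x hx hx1 => by rw [h1 R x hx]; exact h0 x hx hx1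
  · intro h R hR h0
    exact h R hR fun x hx hx1 => by rw [← h1 R x hx]; exact h0 x hx hx1

/-- Let `β_1, …, β_s` be pairwise different (up to the order of the entries) vectors of rational numbers between `0` and `1`, of
even lengths `n_j ≥ 2`, symmetric under `a ↦ 1 - a`. Then for `|a| > 1` and any `ℓ` the matrices `Y_j(1 / a)` lie in
`T(1 / a)`, and for all `k, m, δ, D, p` there are `c > 0`, `C` and a finite set `B` such that for every `ℚ`-space `V` of
complex numbers of dimension `≤ D`, all complex matrices `Ω_{i j}` and all `T ≥ 1` all but at most `C T^(-c) |I|^k` of the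
`k`-tuples `a` in `I` without coordinates in `B` are generic: every polynomial relation of degree `≤ δ` with coefficients in `V`
between logarithms of the `a_i` and the entries of the matrices `Y_j(1 / a_i) Ω_{i j}` vanishes identically on
`ℂ^k × ∏_i T(1 / a_i) Ω_i`; here `I` is the set of the algebraic integers of degree `≤ m` with all conjugates at most `T`. -/
theorem result (k s m δ D p : ℕ) (hm : 1 ≤ m) (n : Fin s → ℕ) (β : ∀ j, Fin (n j) → ℚ) (hn : ∀ j, 2 ≤ n j ∧ Even (n j))
    (hβ : ∀ j l, 0 < β j l ∧ β j l < 1) (hs : ∀ j, ∃ σ : Equiv.Perm (Fin (n j)), ∀ l, β j (σ l) + β j l = 1)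
    (hne : ∀ j j', j ≠ j' → ¬ ∃ σ : Fin (n j) ≃ Fin (n j'), ∀ l, β j' (σ l) = β j l) :
    (∀ a ℓ : ℂ, 1 < ‖a‖ → (fun j => Y (β j) (1 / a) (-ℓ)) ∈ torsor β (1 / a)) ∧
    ∃ c C : ℝ, 0 < c ∧ ∃ B : Set ℂ, B.Finite ∧ ∀ V : Submodule ℚ ℂ, Module.Finite ℚ V → Module.finrank ℚ V ≤ D →
      ∀ (Ω : Fin k → ∀ j, Matrix (Fin (n j)) (Fin p) ℂ) (T : ℕ), 1 ≤ T →
      ({a : Fin k → ℂ | (∀ i, a i ∈ integers m T ∧ a i ∉ B) ∧ ¬ Generic δ V β Ω a}.ncard : ℝ) ≤
        C * (T : ℝ) ^ (-c) * ((integers m T).ncard : ℝ) ^ k := by
  have hS : Q207.HN.Sy β := Q207.HN.sy_of (fun j => (hn j).1) (fun j => (hn j).2) hβ hs hne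
  refine ⟨fun a ℓ ha => ?_, ?_⟩
  · rw [torsor_eq]
    have h1 := hS.qd_in ha ℓ
    have h2 : (fun j => Y (β j) (1 / a) (-ℓ)) = fun j => Q207.HN.YL (β j) (1 / a) (-ℓ) := by
      funext j
      exact Y_eq _ _ _
    rw [h2]
    exact h1
  obtain ⟨c, C, hc, B, hBf, hB⟩ := Q207.HN.sum_tor hS k m hm δ D p
  refine ⟨c, C, hc, B, hBf, fun V hVf hVD Ω T hT => le_trans ?_ (hB V hVf hVD Ω T hT)⟩
  refine Nat.cast_le.2 (Set.ncard_le_ncard ?_ ?_)
  · rintro a ⟨h1, h2⟩
    refine ⟨h1, fun h3 => h2 ⟨h3.1, fun ℓ hℓ P hP1 hP2 hP3 l X hX => ?_⟩⟩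
    refine h3.2 ℓ hℓ P hP1 hP2 ?_ l X fun i => (torsor_eq β _ _).1 (hX i)
    have h4 : (fun (i : Fin k) j => Q207.HN.YL (β j) (1 / a i) (-ℓ i) * Ω i j) = fun i j => Y (β j) (1 / a i) (-ℓ i) * Ω i j := by
      funext i j
      rw [Y_eq]
    rw [h4]
    exact hP3
  · refine (Set.Finite.pi (fun _ : Fin k => Pool.Agent.Y916.Sl.sint_fin m T)).subset ?_
    intro α hα i _
    exact (hα.1 i).1

end Pool.Agent.Results.MP_57341d_ag.SumsOverNumberFields
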