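import Pool.Agent.Q50.DR.Defs
import Pool.Agent.Q50.DR.Per

open CategoryTheory AlgebraicGeometry

universe u w

namespace Pool.Agent.Results.MP_57341d_ag.UpperBoundFromFourthPower

open Pool.Agent.H914
open Pool.Agent.Y121.AHS (Comparison)
open Pool.Agent.Y133.Half (pw)
open Pool.Agent.Q50.MTC (HodgeDecomposition IsHodge)
open Pool.Agent.Q50.DR

variable {k : Type u} [Field k] {𝒱 : VarClass k} {ops : CycleOps 𝒱}
  {W D : WeilCohomology.{u, 0} ops} [Algebra W.K ℂ] [Algebra D.K ℂ]

/-- **The transcendence degree of the field of periods of a variety `X` is at most the dimension of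
the space `Lie MT(X) + 𝔷`**, if the Hodge classes of codimension `dim X` on `X ^ 2` and of codimension
`2 dim X` on `X ^ 4` are de Rham-Betti classes. -/
theorem result (T : HodgeDecomposition W) (C : Comparison W D ℂ) (hC : C.s = RingEquiv.refl ℂ)
    (X : 𝒱.Obj) (h2 : ∀ c, IsHodge T (pw X 1) X.dim c → IsDRB C (pw X 1) X.dim c)
    (h4 : ∀ c, IsHodge T (pw X 3) (2 * X.dim) c → IsDRB C (pw X 3) (2 * X.dim) c) :
    trdegOf D.K (periods C X) ≤ dimEnd fun Z => InMT T X Z ∨ InCentre T X Z :=
  main T C hC X h2 h4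

end Pool.Agent.Results.MP_57341d_ag.UpperBoundFromFourthPower
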